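import Pool.Agent.Q66.SH.Stm

/-!
# Job SVL of project SH: singular values are lower bounds of Bernstein numbers
-/

set_option autoImplicit false

open Filter Topology
open scoped ENNReal

namespace Pool.Agent.Q103.SH

open Pool.Agent.Q66.SH

/-- The norm of a linear combination of orthonormal vectors. -/
theorem norm_sq_comb {H : Type} [NormedAddCommGroup H] [InnerProductSpace ℂ H] {v : ℕ → H}
    (hv : Orthonormal ℂ v) (c : ℕ → ℂ) (A : Finset ℕ) :
    ‖∑ i ∈ A, c i • v i‖ ^ 2 = ∑ i ∈ A, ‖c i‖ ^ 2 := by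
  have h := hv.inner_sum c c A
  rw [inner_self_eq_norm_sq_to_K] at h
  have h2 : ((‖∑ i ∈ A, c i • v i‖ ^ 2 : ℝ) : ℂ) = ((∑ i ∈ A, ‖c i‖ ^ 2 : ℝ) : ℂ) := by
    push_cast
    refine h.trans (Finset.sum_congr rfl fun i _ => ?_)
    rw [Complex.conj_mul']
  exact_mod_cast h2

theorem t_SVL : S_SVL := by
  intro H _ _ _ T s n ⟨hanti, hs0, _, e, f, he, hf, hT⟩
  refine ⟨Submodule.span ℂ (Set.range fun i : Fin (n + 1) => e i), ?_, ?_, ?_⟩
  · exact FiniteDimensional.span_of_finite ℂ (Set.finite_range _)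
  · have hli : LinearIndependent ℂ (fun i : Fin (n + 1) => e i) :=
      (he.comp (fun i : Fin (n + 1) => (i : ℕ)) Fin.val_injective).linearIndependent
    rw [finrank_span_eq_card hli, Fintype.card_fin]
  · intro x hx
    obtain ⟨c, hc⟩ := (Submodule.mem_span_range_iff_exists_fun ℂ).1 hx
    -- extend the coefficients by zero
    obtain ⟨d, hd⟩ : ∃ d : ℕ → ℂ, ∀ i : Fin (n + 1), d i = c i :=
      ⟨fun j => if h : j < n + 1 then c ⟨j, h⟩ else 0, fun i => by simp only [i.isLt, dif_pos]⟩
    have hx2 : x = ∑ i ∈ Finset.range (n + 1), d i • e i := by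
      rw [Finset.sum_range, ← hc]
      exact Finset.sum_congr rfl fun i _ => by rw [hd i]
    have hin : ∀ j ∈ Finset.range (n + 1), inner ℂ (e j) x = d j := by
      intro j hj
      rw [hx2]
      exact he.inner_right_sum d hj
    have hout : ∀ j, j ∉ Finset.range (n + 1) → inner ℂ (e j) x = 0 := by
      intro j hj
      rw [hx2, inner_sum]
      refine Finset.sum_eq_zero fun i hi => ?_
      have hne : j ≠ i := by
        rintro rfl
        exact hj hi
      rw [inner_smul_right, he.2 hne, mul_zero]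
    have hTx : T x = ∑ i ∈ Finset.range (n + 1), ((s i : ℂ) * d i) • f i := by
      have h1 : HasSum (fun j => ((s j : ℂ) * inner ℂ (e j) x) • f j)
          (∑ j ∈ Finset.range (n + 1), ((s j : ℂ) * inner ℂ (e j) x) • f j) :=
        hasSum_sum_of_ne_finset_zero fun j hj => by rw [hout j hj, mul_zero, zero_smul]
      rw [(hT x).unique h1]
      exact Finset.sum_congr rfl fun j hj => by rw [hin j hj]
    have h1 : ‖x‖ ^ 2 = ∑ i ∈ Finset.range (n + 1), ‖d i‖ ^ 2 := by
      rw [hx2]
      exact norm_sq_comb he d _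
    have h2 : ‖T x‖ ^ 2 = ∑ i ∈ Finset.range (n + 1), s i ^ 2 * ‖d i‖ ^ 2 := by
      rw [hTx, norm_sq_comb hf (fun i => (s i : ℂ) * d i) _]
      refine Finset.sum_congr rfl fun i _ => ?_
      rw [norm_mul, mul_pow, Complex.norm_real, Real.norm_eq_abs, sq_abs]
    have h3 : (s n * ‖x‖) ^ 2 ≤ ‖T x‖ ^ 2 := by
      rw [mul_pow, h1, h2, Finset.mul_sum]
      refine Finset.sum_le_sum fun i hi => ?_
      have h4 : s n ≤ s i := hanti (by
        have := Finset.mem_range.1 hi
        omega)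
      exact mul_le_mul_of_nonneg_right (pow_le_pow_left₀ (hs0 n) h4 2) (sq_nonneg _)
    exact le_of_sq_le_sq h3 (norm_nonneg _)

end Pool.Agent.Q103.SH
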