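import Pool.Agent.Q66.SH.Stm

/-!
# Job UP of project SH: the norm of a sum of block diagonal operators
-/

set_option autoImplicit false

open Filter Topology
open scoped ENNReal

namespace Pool.Agent.Q103.SH

open Pool.Agent.Q66.SH

theorem t_UP (hN : S_BN) (hU : S_BLU) (hL : S_LAY) (hA : S_APB) : S_UP := by
  intro H _ _ _ p hp Q hQ D n _hn hD hle
  by_cases htop : p = ∞
  · subst htop
    unfold N at hle ⊢
    rw [if_pos rfl, ENNReal.inv_top, ENNReal.toReal_zero, ENNReal.rpow_zero]
    have h1 : ∀ j < n, ‖D j‖ ≤ 1 := by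
      intro j hj
      have h := hle j hj
      rw [if_pos rfl, ← ofReal_norm, ← ENNReal.ofReal_one] at h
      exact (ENNReal.ofReal_le_ofReal_iff zero_le_one).1 h
    have h2 := hN H Q hQ D 1 n zero_le_one hD h1
    rw [← ofReal_norm, ← ENNReal.ofReal_one]
    exact ENNReal.ofReal_le_ofReal h2
  · have hr : 0 < p.toReal := ENNReal.toReal_pos hp htop
    obtain ⟨-, hA0, hAm, -⟩ := hA H
    have hfin : ∀ (T : H →L[ℂ] H) (i : ℕ), apx i T ≠ ∞ := by
      intro T i
      have h1 : apx i T ≤ apx 0 T := hAm T (Nat.zero_le i)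
      rw [hA0] at h1
      exact ne_top_of_le_ne_top enorm_ne_top h1
    have h1 := (hL p.toReal hr n (fun i => apx i (∑ j ∈ Finset.range n, D j))
      (fun j i => apx i (D j)) (fun i => hfin _ i) (fun j i => hfin _ i)).1
      (fun t ht => hU H Q hQ D n hD t ht)
    have h2 : ∀ j ∈ Finset.range n, ∑' i, apx i (D j) ^ p.toReal ≤ 1 := by
      intro j hj
      have h := hle j (Finset.mem_range.1 hj)
      unfold N pw at h
      rw [if_neg htop] at h
      have h3 := ENNReal.rpow_le_rpow h hr.le
      rwa [← ENNReal.rpow_mul, one_div_mul_cancel hr.ne', ENNReal.rpow_one, ENNReal.one_rpow] at h3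
    have h3 : pw p.toReal (∑ j ∈ Finset.range n, D j) ≤ n := by
      unfold pw
      refine h1.trans ((Finset.sum_le_sum h2).trans ?_)
      simp
    unfold N
    rw [if_neg htop, ENNReal.toReal_inv, ← one_div]
    exact ENNReal.rpow_le_rpow h3 (by positivity)

end Pool.Agent.Q103.SH
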